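import Pool.Agent.Helper70.EH.Goals

/-!
# Project EH (MP_20ee5e_ag): the numbers, exponentials against polynomials
-/

set_option autoImplicit false

open Pool.Agent.Helper70.EH

namespace Pool.Agent.Helper39.EH.CJ

noncomputable section

/-- `a (b+1) e'` -/
def ee (a b A X : ℝ) : ℝ := (b + 1) * (A * X - 2) - a * (a + b - 1) * (2 * X - 1)

/-- `a (b+1)` times the second bracket -/
def gg (a b A X : ℝ) : ℝ := 2 * (a + b) ^ 2 * ee a b A X +
  a * (b + 1) * (a + b - 1) * ((a + b - 1) * X - (a + b) - 1) - 2 * b * (b + 1) * (A * X - 2) -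
  a * (b + 1) * (a + b - 2) * b * (X / 2 + 1) / 4

theorem case2 (b X : ℝ) (hb : 3 ≤ b) (hX : 8 ≤ X) : 0 ≤ ee 2 b 4 X ∧ 0 ≤ gg 2 b 4 X := by
  obtain ⟨t, ht, rfl⟩ : ∃ t : ℝ, 0 ≤ t ∧ b = t + 3 := ⟨b - 3, by linarith, by ring⟩
  obtain ⟨u, hu, rfl⟩ : ∃ u : ℝ, 0 ≤ u ∧ X = u + 8 := ⟨X - 8, by linarith, by ring⟩
  constructor
  · have h : ee 2 (t + 3) 4 (u + 8) = 0 := by unfold ee; ring
    rw [h]
  · have h : gg 2 (t + 3) 4 (u + 8) = 22 + 275/2*t + 127/4*t*u + 79*t^2 + 27/2*t^2*u + 23/2*t^3 + 7/4*t^3*u + 23*u := by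
      unfold gg ee; ring
    rw [h]; positivity

theorem case3 (b X : ℝ) (hb : 2 ≤ b) (hX : 4 ≤ X) : 0 ≤ ee 3 b 8 X ∧ 0 ≤ gg 3 b 8 X := by
  obtain ⟨t, ht, rfl⟩ : ∃ t : ℝ, 0 ≤ t ∧ b = t + 2 := ⟨b - 2, by linarith, by ring⟩
  obtain ⟨u, hu, rfl⟩ : ∃ u : ℝ, 0 ≤ u ∧ X = u + 4 := ⟨X - 4, by linarith, by ring⟩
  constructor
  · have h : ee 3 (t + 2) 8 (u + 4) = 6 + 9*t + 2*t*u := by unfold ee; ring
    rw [h]; positivity
  · have h : gg 3 (t + 2) 8 (u + 4) = 519/2 + 2163/4*t + 1057/8*t*u + 207*t^2 + 54*t^2*u + 99/4*t^3 + 53/8*t^3*u + 165/4*u := by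
      unfold gg ee; ring
    rw [h]; positivity

theorem case4 (b X : ℝ) (hb : 1 ≤ b) (hX : 2 ≤ X) : 0 ≤ ee 4 b 16 X ∧ 0 ≤ gg 4 b 16 X := by
  obtain ⟨t, ht, rfl⟩ : ∃ t : ℝ, 0 ≤ t ∧ b = t + 1 := ⟨b - 1, by linarith, by ring⟩
  obtain ⟨u, hu, rfl⟩ : ∃ u : ℝ, 0 ≤ u ∧ X = u + 2 := ⟨X - 2, by linarith, by ring⟩
  constructor
  · have h : ee 4 (t + 1) 16 (u + 2) = 12 + 18*t + 8*t*u := by unfold ee; ring
    rw [h]; positivity
  · have h : gg 4 (t + 1) 16 (u + 2) = 532 + 1018*t + 853/2*t*u + 344*t^2 + 165*t^2*u + 38*t^3 + 39/2*t^3*u + 61*u := by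
      unfold gg ee; ring
    rw [h]; positivity

theorem case5 (b X : ℝ) (hb : 1 ≤ b) (hX : b + 1 ≤ X) : 0 ≤ ee 5 b 32 X ∧ 0 ≤ gg 5 b 32 X := by
  obtain ⟨t, ht, rfl⟩ : ∃ t : ℝ, 0 ≤ t ∧ b = t + 1 := ⟨b - 1, by linarith, by ring⟩
  obtain ⟨u, hu, rfl⟩ : ∃ u : ℝ, 0 ≤ u ∧ X = u + (t + 1 + 1) := ⟨X - (t + 1 + 1), by linarith, by ring⟩
  constructor
  · have h : ee 5 (t + 1) 32 (u + (t + 1 + 1)) = 10 + 17*(t+1) + 22*(t+1)^2 + u * (14 + 22 * t) := by unfold ee; ring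
    rw [h]; positivity
  · have h : gg 5 (t + 1) 32 (u + (t + 1 + 1)) = 460 + 8115/8*(t+1) + 11493/8*(t+1)^2 + 3605/8*(t+1)^3 + 387/8*(t+1)^4 +
        u * (805/2*(t+1)^2 + 387/8*(t+1)^3 + 7953/8*t + 5393/8) := by
      unfold gg ee; ring
    rw [h]; positivity

theorem case6 (a b A X : ℝ) (ha : 6 ≤ a) (hb : 0 ≤ b) (hX : b + 1 ≤ X) (hA : 32 / 15 * (a * (a - 1)) ≤ A) :
    0 ≤ ee a b A X ∧ 0 ≤ gg a b A X := by
  have hX0 : 0 < X := by linarith
  have h1 : a + b - 1 ≤ (a - 1) * (b + 1) := by nlinarith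
  have hbX : 0 ≤ (b + 1) * X := by positivity
  constructor
  · have h2 : (b + 1) * (2 * (a * (a - 1))) * X ≤ (b + 1) * A * X := by
      have : 2 * (a * (a - 1)) ≤ A := by nlinarith
      nlinarith
    have h3 : 2 * a * X * (a + b - 1) ≤ 2 * a * X * ((a - 1) * (b + 1)) :=
      mul_le_mul_of_nonneg_left h1 (by positivity)
    have h4 : 2 * (b + 1) ≤ a * (a + b - 1) := by nlinarith
    unfold ee
    nlinarith
  · -- the coefficient of `A`
    have hc : 0 ≤ (b + 1) * X * (2 * (a + b) ^ 2 - 2 * b) := by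
      have : 0 ≤ 2 * (a + b) ^ 2 - 2 * b := by nlinarith
      positivity
    have h5 : 4 * a * (a + b - 1) * (a + b) ^ 2 * X ≤
        32 / 15 * (a * (a - 1)) * ((b + 1) * X * (2 * (a + b) ^ 2 - 2 * b)) := by
      have h6 : 15 / 8 * (a + b) ^ 2 ≤ 2 * (a + b) ^ 2 - 2 * b := by nlinarith [sq_nonneg (a - b), sq_nonneg (a + b - 12)]
      have h7 : 32 / 15 * a * X * (a + b - 1) * (15 / 8 * (a + b) ^ 2) ≤
          32 / 15 * a * X * ((a - 1) * (b + 1)) * (2 * (a + b) ^ 2 - 2 * b) := by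
        apply mul_le_mul _ h6 (by positivity) (by
          have : 0 ≤ a - 1 := by linarith
          positivity)
        exact mul_le_mul_of_nonneg_left h1 (by positivity)
      nlinarith
    have h8 : 32 / 15 * (a * (a - 1)) * ((b + 1) * X * (2 * (a + b) ^ 2 - 2 * b)) ≤
        A * ((b + 1) * X * (2 * (a + b) ^ 2 - 2 * b)) := mul_le_mul_of_nonneg_right hA hc
    have h9 : gg a b A X = (A * ((b + 1) * X * (2 * (a + b) ^ 2 - 2 * b)) - 4 * a * (a + b - 1) * (a + b) ^ 2 * X) +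
        (X*a*(b+1)*((a+b-1)^2-(a+b-2)*b*(1/8))+2*(a+b)^2*(a*(a+b-1)-2*(b+1))-a*(b+1)*((a+b)^2-1)+4*b*(b+1)-
          a*(b+1)*(a+b-2)*b*(1/4)) := by
      unfold gg ee; ring
    have h10 : 0 ≤ X*a*(b+1)*((a+b-1)^2-(a+b-2)*b*(1/8))+2*(a+b)^2*(a*(a+b-1)-2*(b+1))-a*(b+1)*((a+b)^2-1)+4*b*(b+1)-
          a*(b+1)*(a+b-2)*b*(1/4) := by
      obtain ⟨s, hs, rfl⟩ : ∃ s : ℝ, 0 ≤ s ∧ a = s + 6 := ⟨a - 6, by linarith, by ring⟩
      obtain ⟨u, hu, rfl⟩ : ∃ u : ℝ, 0 ≤ u ∧ X = u + (b + 1) := ⟨X - (b + 1), by linarith, by ring⟩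
      ring_nf
      positivity
    rw [h9]
    linarith

theorem two_pow_ge (b : ℕ) : (b : ℝ) + 1 ≤ 2 ^ b := by
  have h : b < 2 ^ b := Nat.lt_two_pow_self
  have h2 : b + 1 ≤ 2 ^ b := h
  exact_mod_cast h2

theorem pow_a (a : ℕ) (ha : 6 ≤ a) : 32 / 15 * ((a : ℝ) * (a - 1)) ≤ 2 ^ a := by
  induction a, ha using Nat.le_induction with
  | base => norm_num
  | succ n hn ih =>
    have h : (6 : ℝ) ≤ n := by exact_mod_cast hn
    push_cast
    rw [pow_succ]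
    nlinarith

theorem cases_all (j b : ℕ) (hj : 1 ≤ j) (hN : 5 ≤ j + 1 + b) :
    0 ≤ ee ((j : ℝ) + 1) b (2 ^ (j + 1)) (2 ^ b) ∧ 0 ≤ gg ((j : ℝ) + 1) b (2 ^ (j + 1)) (2 ^ b) := by
  have hX := two_pow_ge b
  rcases lt_or_ge j 5 with h | h
  · have hj' : j = 1 ∨ j = 2 ∨ j = 3 ∨ j = 4 := by omega
    have pw : ∀ m : ℕ, m ≤ b → (2 : ℝ) ^ m ≤ 2 ^ b := fun m hm => pow_le_pow_right₀ (by norm_num) hm
    rcases hj' with rfl | rfl | rfl | rfl
    · have hb : 3 ≤ b := by omega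
      have := case2 b (2 ^ b) (by exact_mod_cast hb) (by have := pw 3 hb; norm_num at this; exact this)
      norm_num at this ⊢
      exact this
    · have hb : 2 ≤ b := by omega
      have := case3 b (2 ^ b) (by exact_mod_cast hb) (by have := pw 2 hb; norm_num at this; exact this)
      norm_num at this ⊢
      exact this
    · have hb : 1 ≤ b := by omega
      have := case4 b (2 ^ b) (by exact_mod_cast hb) (by have := pw 1 hb; norm_num at this; exact this)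
      norm_num at this ⊢
      exact this
    · rcases Nat.eq_zero_or_pos b with rfl | hb
      · unfold gg ee
        norm_num
      · have := case5 b (2 ^ b) (by exact_mod_cast hb) hX
        norm_num at this ⊢
        exact this
  · have ha := pow_a (j + 1) (by omega)
    have h6 : (6 : ℝ) ≤ (j : ℝ) + 1 := by
      have : (5 : ℝ) ≤ j := by exact_mod_cast h
      linarith
    refine case6 _ _ _ _ h6 (by positivity) hX ?_
    push_cast at ha
    exact ha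

/-- from the brackets to the coefficients -/
theorem fin (a b N P A X c1 c2 c3 c4 q : ℝ) (ha : 2 ≤ a) (hb : 0 ≤ b) (hN : N = a + b) (hN5 : 5 ≤ N) (hP : 0 ≤ P)
    (hX : 0 ≤ X)
    (h1 : c1 * a = N * P) (h2 : c2 * (b + 1) = N * P) (h3 : c3 * a = P * b) (h4 : c4 * (N - 1) = P * b)
    (h5 : c4 * q = c4 * (X / 2)) (hE : 0 ≤ ee a b A X) (hG : 0 ≤ gg a b A X) :
    0 ≤ (A * X - 2) * c1 - (N - 1) * c2 * (2 * X - 1) ∧
    0 ≤ 2 * N * ((A * X - 2) * c1 - (N - 1) * c2 * (2 * X - 1)) +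
      ((N - 1) * P * (N * (X - 1) - (X + 1)) - 2 * (A * X - 2) * c3) - (N - 1) ^ 4 / (4 * N ^ 2) * (c4 * (q + 1)) := by
  have hab : 0 < a * (b + 1) := by positivity
  have e1 : ((A * X - 2) * c1 - (N - 1) * c2 * (2 * X - 1)) * (a * (b + 1)) = N * P * ee a b A X := by
    have : ((A * X - 2) * c1 - (N - 1) * c2 * (2 * X - 1)) * (a * (b + 1)) =
        (A * X - 2) * (b + 1) * (c1 * a) - (N - 1) * (2 * X - 1) * a * (c2 * (b + 1)) := by ring
    rw [this, h1, h2]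
    unfold ee
    rw [hN]
    ring
  have hN0 : 0 < N := by linarith
  have hc : 0 ≤ N * P * ee a b A X := by positivity
  constructor
  · by_contra hcon
    push Not at hcon
    have := mul_neg_of_neg_of_pos hcon hab
    linarith
  · have e2 : (N - 1) ^ 4 / (4 * N ^ 2) * (c4 * (q + 1)) = (N - 1) ^ 3 / (4 * N ^ 2) * (P * b * (X / 2 + 1)) := by
      have : (N - 1) ^ 4 / (4 * N ^ 2) * (c4 * (q + 1)) =
          (N - 1) ^ 3 / (4 * N ^ 2) * ((c4 * q + c4) * (N - 1)) := by ring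
      rw [this, h5]
      have h7 : (c4 * (X / 2) + c4) * (N - 1) = P * b * (X / 2 + 1) := by
        have : (c4 * (X / 2) + c4) * (N - 1) = c4 * (N - 1) * (X / 2 + 1) := by ring
        rw [this, h4]
      rw [h7]
    have e3 : (N - 1) ^ 3 / (4 * N ^ 2) ≤ (N - 2) / 4 := by
      rw [div_le_div_iff₀ (by positivity) (by norm_num)]
      nlinarith
    have e4 : (N - 1) ^ 3 / (4 * N ^ 2) * (P * b * (X / 2 + 1)) ≤ (N - 2) / 4 * (P * b * (X / 2 + 1)) :=
      mul_le_mul_of_nonneg_right e3 (by positivity)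
    rw [e2]
    have e5 : (2 * N * ((A * X - 2) * c1 - (N - 1) * c2 * (2 * X - 1)) +
      ((N - 1) * P * (N * (X - 1) - (X + 1)) - 2 * (A * X - 2) * c3) - (N - 2) / 4 * (P * b * (X / 2 + 1))) *
        (a * (b + 1)) = P * gg a b A X := by
      have : (2 * N * ((A * X - 2) * c1 - (N - 1) * c2 * (2 * X - 1)) +
          ((N - 1) * P * (N * (X - 1) - (X + 1)) - 2 * (A * X - 2) * c3) - (N - 2) / 4 * (P * b * (X / 2 + 1))) *
          (a * (b + 1)) = 2 * N * (((A * X - 2) * c1 - (N - 1) * c2 * (2 * X - 1)) * (a * (b + 1))) +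
          ((N - 1) * P * (N * (X - 1) - (X + 1)) * (a * (b + 1)) - 2 * (A * X - 2) * (b + 1) * (c3 * a)) -
          (N - 2) / 4 * (P * b * (X / 2 + 1)) * (a * (b + 1)) := by ring
      rw [this, e1, h3]
      unfold gg
      rw [hN]
      ring
    have hPG : 0 ≤ P * gg a b A X := mul_nonneg hP hG
    have e6 : 0 ≤ 2 * N * ((A * X - 2) * c1 - (N - 1) * c2 * (2 * X - 1)) +
      ((N - 1) * P * (N * (X - 1) - (X + 1)) - 2 * (A * X - 2) * c3) - (N - 2) / 4 * (P * b * (X / 2 + 1)) := by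
      by_contra hcon
      push Not at hcon
      have := mul_neg_of_neg_of_pos hcon hab
      linarith
    linarith

theorem t : G_CJ := by
  intro N j hN hj hjN
  obtain ⟨b, rfl⟩ : ∃ b, N = j + 1 + b := ⟨N - (j + 1), by omega⟩
  obtain ⟨hE, hG⟩ := cases_all j b hj hN
  have n1 : ((j + 1 + b).choose (j + 1) : ℝ) * ((j : ℝ) + 1) = ((j : ℝ) + 1 + b) * ((j + b).choose j : ℝ) := by
    have h := Nat.add_one_mul_choose_eq (j + b) j
    have e : j + b + 1 = j + 1 + b := by omega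
    rw [e] at h
    have h' : (((j + 1 + b) * (j + b).choose j : ℕ) : ℝ) = (((j + 1 + b).choose (j + 1) * (j + 1) : ℕ) : ℝ) := by
      exact_mod_cast h
    push_cast at h'
    linarith
  have n2 : ((j + 1 + b).choose j : ℝ) * ((b : ℝ) + 1) = ((j : ℝ) + 1 + b) * ((j + b).choose j : ℝ) := by
    have h := Nat.choose_mul_succ_eq (j + b) j
    have e : j + b + 1 = j + 1 + b := by omega
    have e' : j + 1 + b - j = b + 1 := by omega
    rw [e, e'] at h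
    have h' : (((j + b).choose j * (j + 1 + b) : ℕ) : ℝ) = (((j + 1 + b).choose j * (b + 1) : ℕ) : ℝ) := by
      exact_mod_cast h
    push_cast at h'
    linarith
  have n3 : ((j + b).choose (j + 1) : ℝ) * ((j : ℝ) + 1) = ((j + b).choose j : ℝ) * b := by
    have h := Nat.choose_succ_right_eq (j + b) j
    have e' : j + b - j = b := by omega
    rw [e'] at h
    exact_mod_cast h
  obtain ⟨m, rfl⟩ : ∃ m, j = m + 1 := ⟨j - 1, by omega⟩
  have n4 : ((m + b).choose (m + 1) : ℝ) * (((m + 1 : ℕ) : ℝ) + 1 + b - 1) = ((m + 1 + b).choose (m + 1) : ℝ) * b := by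
    have h := Nat.choose_mul_succ_eq (m + b) (m + 1)
    have e : m + b + 1 = m + 1 + b := by omega
    have e' : m + 1 + b - (m + 1) = b := by omega
    rw [e, e'] at h
    have h' : (((m + b).choose (m + 1) * (m + 1 + b) : ℕ) : ℝ) = (((m + 1 + b).choose (m + 1) * b : ℕ) : ℝ) := by
      exact_mod_cast h
    push_cast at h' ⊢
    linarith
  have n5 : ((m + b).choose (m + 1) : ℝ) * 2 ^ (m + 1 + 1 + b - 2 - (m + 1)) =
      ((m + b).choose (m + 1) : ℝ) * (2 ^ b / 2) := by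
    rcases Nat.eq_zero_or_pos b with rfl | hb
    · have : (m + 0).choose (m + 1) = 0 := Nat.choose_eq_zero_of_lt (by omega)
      rw [this]
      simp
    · obtain ⟨c, rfl⟩ : ∃ c, b = c + 1 := ⟨b - 1, by omega⟩
      have : m + 1 + 1 + (c + 1) - 2 - (m + 1) = c := by omega
      rw [this, pow_succ]
      ring
  have hN' : (((m + 1 + 1 + b : ℕ)) : ℝ) = ((m + 1 : ℕ) : ℝ) + 1 + b := by push_cast; ring
  have hN5 : (5 : ℝ) ≤ ((m + 1 : ℕ) : ℝ) + 1 + b := by rw [← hN']; exact_mod_cast hN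
  have key := fin (((m + 1 : ℕ) : ℝ) + 1) b (((m + 1 : ℕ) : ℝ) + 1 + b) ((m + 1 + b).choose (m + 1)) (2 ^ (m + 1 + 1))
    (2 ^ b) ((m + 1 + 1 + b).choose (m + 1 + 1)) ((m + 1 + 1 + b).choose (m + 1)) ((m + 1 + b).choose (m + 1 + 1))
    ((m + b).choose (m + 1)) (2 ^ (m + 1 + 1 + b - 2 - (m + 1))) (by push_cast; linarith [Nat.cast_nonneg (α := ℝ) m])
    (by positivity) rfl hN5 (by positivity) (by positivity) n1 n2 n3 n4 n5 hE hG
  have p1 : (2 : ℝ) ^ (m + 1 + 1 + b) = 2 ^ (m + 1 + 1) * 2 ^ b := pow_add _ _ _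
  have p2 : m + 1 + 1 + b - (m + 1) = b + 1 := by omega
  have p3 : m + 1 + 1 + b - 1 = m + 1 + b := by omega
  have p4 : m + 1 + 1 + b - 1 - (m + 1) = b := by omega
  have p5 : m + 1 + 1 + b - 2 = m + b := by omega
  unfold ce cf cg
  rw [hN', p4, p2, p3, p1]
  rw [p5] at key ⊢
  obtain ⟨k1, k2⟩ := key
  refine ⟨?_, ?_⟩
  · convert k1 using 1
    rw [pow_succ]
    ring
  · convert k2 using 1
    rw [pow_succ]
    ring

end

end Pool.Agent.Helper39.EH.CJ
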